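import Mathlib

set_option autoImplicit false

namespace Pool.Agent.Lib.MP_0c65c1_al

/-- The defining relations of `K_n^M(F)/p` on the free `ℤ/p`-module on the `n`-tuples of nonzero
elements of `F`: multilinearity, and the Steinberg relations `(t_1, …, t_n) = 0` whenever
`t_i + t_j = 1` for some `i < j`. -/
def milnorRelations (F : Type) [Field F] (n p : ℕ) : Set ((Fin n → Fˣ) →₀ ZMod p) :=
  {f | ∃ (t : Fin n → Fˣ) (i : Fin n) (a b : Fˣ),
    f = Finsupp.single (Function.update t i (a * b)) 1
      - Finsupp.single (Function.update t i a) 1 - Finsupp.single (Function.update t i b) 1} ∪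
  {f | ∃ (t : Fin n → Fˣ) (i j : Fin n), i < j ∧ (t i : F) + (t j : F) = 1 ∧
    f = Finsupp.single t 1}

/-- The Milnor K-group modulo `p`, `K_n^M(F)/p`. -/
abbrev MilnorK (F : Type) [Field F] (n p : ℕ) : Type :=
  ((Fin n → Fˣ) →₀ ZMod p) ⧸ Submodule.span (ZMod p) (milnorRelations F n p)

/-- The image of the symbol `{t_1, …, t_n}` in `K_n^M(F)/p`. -/
noncomputable def symb {F : Type} [Field F] {n : ℕ} (p : ℕ) (t : Fin n → Fˣ) : MilnorK F n p :=
  Submodule.Quotient.mk (Finsupp.single t 1)

end Pool.Agent.Lib.MP_0c65c1_al
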