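import Mathlib

set_option autoImplicit false

namespace Pool.Agent.Lib.MP_0c65c1_al

open Matrix

variable {G κ F : Type} [Field F]

/-- the determinant attached to a family of `n` elements and `n` coordinates -/
noncomputable def dt {n : ℕ} (V : G → κ → F) (col : Fin n → κ) (s : Fin n → G) : F :=
  Matrix.det (Matrix.of fun i j => V (s i) (col j))

/-- its linear extension -/
noncomputable def Phi {n : ℕ} (V : G → κ → F) (col : Fin n → κ) :
    ((Fin n → G) →₀ F) →ₗ[F] F :=
  Finsupp.linearCombination F (dt V col)

theorem Phi_single {n : ℕ} (V : G → κ → F) (col : Fin n → κ) (s : Fin n → G) :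
    Phi V col (Finsupp.single s 1) = dt V col s := by
  rw [Phi, Finsupp.linearCombination_single, one_smul]

theorem dt_update_mul {n : ℕ} [Mul G] (V : G → κ → F) (hV : ∀ a b, V (a * b) = V a + V b)
    (col : Fin n → κ) (t : Fin n → G) (i : Fin n) (a b : G) :
    dt V col (Function.update t i (a * b)) = dt V col (Function.update t i a) +
      dt V col (Function.update t i b) := by
  have key : ∀ c : G, (Matrix.of fun i' j => V (Function.update t i c i') (col j)) =
      Matrix.updateRow (Matrix.of fun i' j => V (t i') (col j)) i (fun j => V c (col j)) := by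
    intro c
    refine Matrix.ext fun i' j => ?_
    by_cases h : i' = i
    · subst h
      simp
    · simp [Function.update_of_ne h, Matrix.updateRow_ne h]
  rw [dt, dt, dt, key, key, key, ← Matrix.det_updateRow_add]
  congr 2
  funext j
  rw [hV]
  rfl

/-- The Steinberg property. -/
def SteinbergLike {M : ℕ} {D : Type} (V : G → Fin M ⊕ D → F) (a b : G) : Prop :=
  V a = 0 ∨ V b = 0 ∨ V a = V b ∨ ∀ k, V a (Sum.inl k) = 0 ∧ V b (Sum.inl k) = 0

theorem dt_steinberg {M ν : ℕ} {D : Type} (V : G → Fin M ⊕ D → F) (κ : Fin M ⊕ D)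
    (g : Fin ν → Fin M) (t : Fin (ν + 1) → G) (i i' : Fin (ν + 1)) (hii : i ≠ i')
    (h : SteinbergLike V (t i) (t i')) :
    dt V (Fin.cons κ fun j => Sum.inl (g j)) t = 0 := by
  rcases h with h | h | h | h
  · refine Matrix.det_eq_zero_of_row_eq_zero i fun j => ?_
    show V (t i) _ = 0
    rw [h]; rfl
  · refine Matrix.det_eq_zero_of_row_eq_zero i' fun j => ?_
    show V (t i') _ = 0
    rw [h]; rfl
  · refine Matrix.det_zero_of_row_eq hii ?_
    funext j
    show V (t i) _ = V (t i') _
    rw [h]
  · rw [dt, Matrix.det_succ_column_zero]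
    refine Finset.sum_eq_zero fun j _ => ?_
    -- one of the two rows survives
    have hz : ((Matrix.of fun i j => V (t i) ((Fin.cons κ fun j => Sum.inl (g j) :
        Fin (ν + 1) → Fin M ⊕ D) j)).submatrix j.succAbove Fin.succ).det = 0 := by
      have hex : ∃ l : Fin (ν + 1), l ≠ j ∧ ∀ k, V (t l) (Sum.inl k) = 0 := by
        by_cases hj : i = j
        · exact ⟨i', fun h' => hii (hj.trans h'.symm), fun k => (h k).2⟩
        · exact ⟨i, hj, fun k => (h k).1⟩
      obtain ⟨l, hlj, hl⟩ := hex
      obtain ⟨l', hl'⟩ := Fin.exists_succAbove_eq hlj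
      refine Matrix.det_eq_zero_of_row_eq_zero l' fun j' => ?_
      show V (t (j.succAbove l')) _ = 0
      rw [hl', Fin.cons_succ]
      exact hl _
    rw [hz, mul_zero]

/-- the coefficient vectors of the Laplace expansion -/
noncomputable def yv {M ν r : ℕ} {D : Type} (V : G → Fin M ⊕ D → F)
    (s : Fin r → Fin (ν + 1) → G) (g : Fin ν → Fin M) : Fin r × Fin (ν + 1) → F :=
  fun p => (-1) ^ (p.2 : ℕ) *
    Matrix.det (Matrix.of fun i' j => V (s p.1 (p.2.succAbove i')) (Sum.inl (g j)))

/-- the coordinate vectors -/
def wv {M ν r : ℕ} {D : Type} (V : G → Fin M ⊕ D → F)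
    (s : Fin r → Fin (ν + 1) → G) (κ : Fin M ⊕ D) : Fin r × Fin (ν + 1) → F :=
  fun p => V (s p.1 p.2) κ

theorem dot_eq {M ν r : ℕ} {D : Type} (V : G → Fin M ⊕ D → F)
    (s : Fin r → Fin (ν + 1) → G) (κ : Fin M ⊕ D) (g : Fin ν → Fin M) :
    ∑ p, wv V s κ p * yv V s g p =
      ∑ l, dt V (Fin.cons κ fun j => Sum.inl (g j)) (s l) := by
  rw [Fintype.sum_prod_type]
  refine Finset.sum_congr rfl fun l _ => ?_
  rw [dt, Matrix.det_succ_column_zero]
  refine Finset.sum_congr rfl fun i _ => ?_
  show V (s l i) κ * ((-1) ^ (i : ℕ) * _) = (-1) ^ (i : ℕ) * V (s l i) _ * _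
  have e : (Matrix.of fun i' j => V (s l (i.succAbove i')) (Sum.inl (g j))) =
      (Matrix.of fun i j => V (s l i) ((Fin.cons κ fun j => Sum.inl (g j) :
        Fin (ν + 1) → Fin M ⊕ D) j)).submatrix i.succAbove Fin.succ := by
    refine Matrix.ext fun i' j => ?_
    simp
  rw [e, Fin.cons_zero]
  ring

theorem sum_det_updateCol {ν M : ℕ} (A : Matrix (Fin ν) (Fin ν) F) (j0 : Fin ν) (μ : Fin M → F)
    (w : Fin M → Fin ν → F) (h : ∀ i, ∑ k, μ k * w k i = 0) :
    ∑ k, μ k * Matrix.det (Matrix.updateCol A j0 (w k)) = 0 := by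
  have h1 : ∀ k, μ k * Matrix.det (Matrix.updateCol A j0 (w k)) =
      (Matrix.cramer A (μ k • w k)) j0 := by
    intro k
    rw [map_smul, Pi.smul_apply, Matrix.cramer_apply, smul_eq_mul]
  have h2 : ∑ k, (Matrix.cramer A (μ k • w k)) j0 =
      (Matrix.cramer A (∑ k, μ k • w k)) j0 := by
    rw [map_sum, Finset.sum_apply]
  have h3 : ∑ k, μ k • w k = 0 := by
    funext i
    simp only [Finset.sum_apply, Pi.smul_apply, smul_eq_mul]
    exact h i
  rw [Finset.sum_congr rfl (fun k _ => h1 k), h2, h3, map_zero]
  rfl

/-- The main linear algebra estimate. -/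
theorem main_bound {M ν r : ℕ} {D : Type} (hν : 1 ≤ ν) (hνM : ν ≤ M)
    (V : G → Fin M ⊕ D → F) (s : Fin r → Fin (ν + 1) → G)
    (I : D → (Fin ν ↪o Fin M)) (hI : Function.Bijective I) [Fintype D]
    (h1 : ∀ (k : Fin M) (g : Fin ν → Fin M),
      ∑ l, dt V (Fin.cons (Sum.inl k) fun j => Sum.inl (g j)) (s l) = 0)
    (h2 : ∀ (d : D) (g : Fin ν → Fin M),
      ∑ l, dt V (Fin.cons (Sum.inr d) fun j => Sum.inl (g j)) (s l) =
        Matrix.det (Matrix.of fun j j' : Fin ν => if g j' = I d j then (1 : F) else 0)) :
    Fintype.card D + M ≤ r * (ν + 1) := by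
  classical
  have hdet : ∀ d d' : D, Matrix.det (Matrix.of fun j j' : Fin ν =>
      if I d' j' = I d j then (1 : F) else 0) = if d = d' then 1 else 0 := by
    intro d d'
    by_cases h : d = d'
    · subst h
      rw [if_pos rfl]
      have : (Matrix.of fun j j' : Fin ν => if I d j' = I d j then (1 : F) else 0) = 1 := by
        refine Matrix.ext fun j j' => ?_
        rw [Matrix.of_apply, Matrix.one_apply]
        by_cases hj : j = j'
        · subst hj; simp
        · rw [if_neg hj, if_neg (fun h => hj ((I d).injective h).symm)]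
      rw [this, Matrix.det_one]
    · rw [if_neg h]
      -- the ranges are different
      have hne : I d' ≠ I d := fun h' => h (hI.1 h').symm
      have hr : ∃ j', ∀ j, I d' j' ≠ I d j := by
        by_contra hcon
        push Not at hcon
        apply hne
        have hsub : Set.range (I d') ⊆ Set.range (I d) := by
          rintro _ ⟨j', rfl⟩
          obtain ⟨j, hj⟩ := hcon j'
          exact ⟨j, hj.symm⟩
        have hrange : Set.range (I d') = Set.range (I d) := by
          refine Set.eq_of_subset_of_ncard_le hsub ?_ (Set.toFinite _)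
          rw [Set.ncard_range_of_injective (I d).injective,
            Set.ncard_range_of_injective (I d').injective]
        exact OrderEmbedding.range_inj.1 hrange
      obtain ⟨j', hj'⟩ := hr
      exact Matrix.det_eq_zero_of_column_eq_zero j' fun j => by
        rw [Matrix.of_apply, if_neg (hj' j)]
  -- independence of the `y`
  have hy : LinearIndependent F (fun d : D => yv V s (fun j => I d j)) := by
    rw [Fintype.linearIndependent_iff]
    intro μ hμ d
    have h3 : ∑ p, wv V s (Sum.inr d) p * (∑ d', μ d' • yv V s (fun j => I d' j)) p = 0 := by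
      rw [hμ]; simp
    have h4 : ∑ p, wv V s (Sum.inr d) p * (∑ d', μ d' • yv V s (fun j => I d' j)) p =
        ∑ d', μ d' * ∑ p, wv V s (Sum.inr d) p * yv V s (fun j => I d' j) p := by
      simp only [Finset.sum_apply, Pi.smul_apply, smul_eq_mul, Finset.mul_sum]
      rw [Finset.sum_comm]
      refine Finset.sum_congr rfl fun d' _ => Finset.sum_congr rfl fun p _ => ?_
      ring
    rw [h4] at h3
    have h5 : ∀ d', ∑ p, wv V s (Sum.inr d) p * yv V s (fun j => I d' j) p =
        if d = d' then 1 else 0 := by
      intro d'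
      rw [dot_eq, h2, hdet]
    simp only [h5] at h3
    simpa using h3
  -- independence of the `w`
  have hw : LinearIndependent F (fun k : Fin M => wv V s (Sum.inl k)) := by
    rw [Fintype.linearIndependent_iff]
    intro μ hμ k0
    by_contra hk0
    -- choose `I0` containing `k0`
    obtain ⟨d0, j0, hd0⟩ : ∃ d0 : D, ∃ j0, I d0 j0 = k0 := by
      obtain ⟨T, hT1, hT2⟩ : ∃ T : Finset (Fin M), k0 ∈ T ∧ T.card = ν := by
        obtain ⟨T, hT1, -, hT2⟩ := Finset.exists_subsuperset_card_eq
          (Finset.subset_univ {k0}) (n := ν) (by rw [Finset.card_singleton]; exact hν)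
          (by rw [Finset.card_univ, Fintype.card_fin]; exact hνM)
        exact ⟨T, hT1 (Finset.mem_singleton_self _), hT2⟩
      obtain ⟨d0, hd0⟩ := hI.2 (T.orderEmbOfFin hT2)
      have : k0 ∈ Set.range (T.orderEmbOfFin hT2) := by
        rw [Finset.range_orderEmbOfFin]; exact hT1
      obtain ⟨j0, hj0⟩ := this
      exact ⟨d0, j0, by rw [hd0]; exact hj0⟩
    have hcomb : ∀ p, ∑ k, μ k * yv V s (Function.update (fun j => I d0 j) j0 k) p = 0 := by
      intro p
      have e1 : ∀ k, Matrix.det (Matrix.of fun i' j =>
          V (s p.1 (p.2.succAbove i')) (Sum.inl (Function.update (fun j => I d0 j) j0 k j))) =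
          Matrix.det (Matrix.updateCol (Matrix.of fun i' j =>
            V (s p.1 (p.2.succAbove i')) (Sum.inl (I d0 j))) j0
            (fun i' => V (s p.1 (p.2.succAbove i')) (Sum.inl k))) := by
        intro k
        congr 1
        refine Matrix.ext fun i' j => ?_
        by_cases hj : j = j0
        · subst hj
          simp
        · simp [Function.update_of_ne hj, Matrix.updateCol_ne hj]
      have e2 : ∀ i', ∑ k, μ k * V (s p.1 (p.2.succAbove i')) (Sum.inl k) = 0 := by
        intro i'
        have := congrFun hμ (p.1, p.2.succAbove i')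
        simpa [Finset.sum_apply, wv] using this
      simp only [yv, e1]
      have e3 : ∑ k, μ k * ((-1) ^ (p.2 : ℕ) * Matrix.det (Matrix.updateCol (Matrix.of fun i' j =>
            V (s p.1 (p.2.succAbove i')) (Sum.inl (I d0 j))) j0
            (fun i' => V (s p.1 (p.2.succAbove i')) (Sum.inl k)))) =
          (-1) ^ (p.2 : ℕ) * ∑ k, μ k * Matrix.det (Matrix.updateCol (Matrix.of fun i' j =>
            V (s p.1 (p.2.succAbove i')) (Sum.inl (I d0 j))) j0
            (fun i' => V (s p.1 (p.2.succAbove i')) (Sum.inl k))) := by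
        rw [Finset.mul_sum]
        refine Finset.sum_congr rfl fun k _ => ?_
        ring
      rw [e3, sum_det_updateCol _ j0 μ (fun k i' => V (s p.1 (p.2.succAbove i')) (Sum.inl k)) e2,
        mul_zero]
    have hsum : ∑ k, μ k * (∑ p, wv V s (Sum.inr d0) p *
        yv V s (Function.update (fun j => I d0 j) j0 k) p) = 0 := by
      have : ∑ k, μ k * (∑ p, wv V s (Sum.inr d0) p *
          yv V s (Function.update (fun j => I d0 j) j0 k) p) =
          ∑ p, wv V s (Sum.inr d0) p *
            ∑ k, μ k * yv V s (Function.update (fun j => I d0 j) j0 k) p := by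
        simp only [Finset.mul_sum]
        rw [Finset.sum_comm]
        refine Finset.sum_congr rfl fun p _ => Finset.sum_congr rfl fun k _ => ?_
        ring
      rw [this]
      simp only [hcomb, mul_zero, Finset.sum_const_zero]
    have hval : ∀ k, ∑ p, wv V s (Sum.inr d0) p *
        yv V s (Function.update (fun j => I d0 j) j0 k) p = if k = k0 then 1 else 0 := by
      intro k
      rw [dot_eq, h2]
      by_cases hk : k = k0
      · rw [if_pos hk]
        have : Function.update (fun j => I d0 j) j0 k = fun j => I d0 j := by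
          rw [hk, ← hd0]
          exact Function.update_eq_self j0 (fun j => I d0 j)
        rw [this]
        have := hdet d0 d0
        rw [if_pos rfl] at this
        exact this
      · rw [if_neg hk]
        by_cases hex : ∃ j1, I d0 j1 = k
        · obtain ⟨j1, hj1⟩ := hex
          have hj10 : j1 ≠ j0 := fun h => hk (by rw [← hj1, h, hd0])
          refine Matrix.det_zero_of_column_eq hj10 fun j => ?_
          rw [Matrix.of_apply, Matrix.of_apply, Function.update_of_ne hj10,
            Function.update_self, hj1]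
        · push Not at hex
          refine Matrix.det_eq_zero_of_column_eq_zero j0 fun j => ?_
          rw [Matrix.of_apply, Function.update_self, if_neg (fun h => hex j h.symm)]
    simp only [hval] at hsum
    apply hk0
    simpa using hsum
  -- dimension count
  let Wm : (Fin r × Fin (ν + 1) → F) →ₗ[F] (Fin M → F) :=
    LinearMap.pi fun k => ∑ p, (wv V s (Sum.inl k) p) • LinearMap.proj p
  have hWm : ∀ v k, Wm v k = ∑ p, wv V s (Sum.inl k) p * v p := by
    intro v k
    simp [Wm, LinearMap.sum_apply]
  have hker : Submodule.span F (Set.range (fun d : D => yv V s (fun j => I d j))) ≤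
      LinearMap.ker Wm := by
    rw [Submodule.span_le]
    rintro _ ⟨d, rfl⟩
    rw [SetLike.mem_coe, LinearMap.mem_ker]
    funext k
    rw [hWm, dot_eq, h1]
    rfl
  have hk1 : Fintype.card D ≤ Module.finrank F (LinearMap.ker Wm) := by
    rw [← finrank_span_eq_card hy]
    exact Submodule.finrank_mono hker
  have hr1 : Module.finrank F (LinearMap.range Wm) = M := by
    have hsurj : LinearMap.range Wm = ⊤ := by
      by_contra hne
      obtain ⟨f, hf0, hf⟩ := Submodule.exists_le_ker_of_lt_top (LinearMap.range Wm)
        (lt_top_iff_ne_top.2 hne)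
      apply hf0
      -- the functional `f` gives a relation
      have hrel : ∑ k, f (Pi.single k 1) • wv V s (Sum.inl k) = 0 := by
        funext p
        have h3 : f (Wm (Pi.single p 1)) = 0 :=
          LinearMap.mem_ker.1 (hf (LinearMap.mem_range_self Wm _))
        have h4 : Wm (Pi.single p 1) = ∑ k, (wv V s (Sum.inl k) p) • Pi.single k (1 : F) := by
          funext k
          rw [hWm, Finset.sum_apply]
          simp [Pi.single_apply]
        rw [h4, map_sum] at h3
        simp only [map_smul, smul_eq_mul] at h3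
        rw [Finset.sum_apply]
        simp only [Pi.smul_apply, smul_eq_mul, Pi.zero_apply]
        rw [← h3]
        refine Finset.sum_congr rfl fun k _ => mul_comm _ _
      have h5 := Fintype.linearIndependent_iff.1 hw (fun k => f (Pi.single k 1)) hrel
      refine LinearMap.pi_ext' fun k => LinearMap.ext_ring ?_
      show f (Pi.single k 1) = 0
      exact h5 k
    rw [hsurj, finrank_top, Module.finrank_fintype_fun_eq_card, Fintype.card_fin]
  have hrn := LinearMap.finrank_range_add_finrank_ker Wm
  rw [hr1, Module.finrank_fintype_fun_eq_card, Fintype.card_prod, Fintype.card_fin,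
    Fintype.card_fin] at hrn
  omega

end Pool.Agent.Lib.MP_0c65c1_al
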