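import Mathlib

set_option autoImplicit false

open MvPolynomial

namespace Pool.Agent.Lib.MP_0c65c1_al

variable {M : ℕ} {D : Type}

/-- polynomials in `M + 1` variables as polynomials in `M` variables over `ℂ[X]` -/
noncomputable def toIter (M : ℕ) :
    MvPolynomial (Fin (M + 1)) ℂ ≃ₐ[ℂ] MvPolynomial (Fin M) (Polynomial ℂ) :=
  (renameEquiv ℂ (finSuccEquiv M)).trans (optionEquivRight ℂ (Fin M))

theorem toIter_X_succ (k : Fin M) : toIter M (X k.succ) = X k := by
  simp [toIter]

theorem toIter_X_zero : toIter M (X 0) = C Polynomial.X := by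
  simp [toIter]

theorem toIter_C (c : ℂ) : toIter M (C c) = C (Polynomial.C c) := by
  have h : (C c : MvPolynomial (Fin (M + 1)) ℂ) = algebraMap ℂ _ c := rfl
  rw [h, AlgEquiv.commutes]
  rfl

/-- the leading exponents (lexicographic order in the last `M` variables) of a polynomial and the
orders at the points `c d` of its leading coefficient -/
noncomputable def vP (c : D → ℂ) (P : MvPolynomial (Fin (M + 1)) ℂ) : Fin M ⊕ D → ℤ :=
  Sum.elim (fun k => ((MonomialOrder.lex.degree (toIter M P) k : ℕ) : ℤ))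
    (fun d => ((Polynomial.rootMultiplicity (c d)
      (MonomialOrder.lex.leadingCoeff (toIter M P)) : ℕ) : ℤ))

theorem vP_mul (c : D → ℂ) {P Q : MvPolynomial (Fin (M + 1)) ℂ} (hP : P ≠ 0) (hQ : Q ≠ 0) :
    vP c (P * Q) = vP c P + vP c Q := by
  have hP' : toIter M P ≠ 0 := (map_ne_zero_iff _ (toIter M).injective).2 hP
  have hQ' : toIter M Q ≠ 0 := (map_ne_zero_iff _ (toIter M).injective).2 hQ
  funext κ
  rcases κ with k | d
  · show ((MonomialOrder.lex.degree (toIter M (P * Q)) k : ℕ) : ℤ) =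
      ((MonomialOrder.lex.degree (toIter M P) k : ℕ) : ℤ) +
      ((MonomialOrder.lex.degree (toIter M Q) k : ℕ) : ℤ)
    rw [map_mul, MonomialOrder.degree_mul hP' hQ', Finsupp.add_apply]
    push_cast
    ring
  · show ((Polynomial.rootMultiplicity (c d)
      (MonomialOrder.lex.leadingCoeff (toIter M (P * Q))) : ℕ) : ℤ) =
      ((Polynomial.rootMultiplicity (c d)
      (MonomialOrder.lex.leadingCoeff (toIter M P)) : ℕ) : ℤ) +
      ((Polynomial.rootMultiplicity (c d)
      (MonomialOrder.lex.leadingCoeff (toIter M Q)) : ℕ) : ℤ)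
    rw [map_mul, MonomialOrder.leadingCoeff_mul, Polynomial.rootMultiplicity_mul]
    · push_cast
      ring
    · exact mul_ne_zero (MonomialOrder.leadingCoeff_ne_zero_iff.2 hP')
        (MonomialOrder.leadingCoeff_ne_zero_iff.2 hQ')

/-- The behaviour of `vP` under addition. -/
theorem vP_add (c : D → ℂ) {P Q R : MvPolynomial (Fin (M + 1)) ℂ} (hP : P ≠ 0) (hQ : Q ≠ 0)
    (h : P + Q = R) : vP c P = vP c R ∨ vP c Q = vP c R ∨ vP c P = vP c Q ∨
      ∀ k, vP c P (Sum.inl k) = vP c R (Sum.inl k) ∧ vP c Q (Sum.inl k) = vP c R (Sum.inl k) := by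
  have hadd : toIter M R = toIter M P + toIter M Q := by rw [← h, map_add]
  have hP' : toIter M P ≠ 0 := (map_ne_zero_iff _ (toIter M).injective).2 hP
  have hQ' : toIter M Q ≠ 0 := (map_ne_zero_iff _ (toIter M).injective).2 hQ
  set f := toIter M P with hf
  set g := toIter M Q with hg
  have ext1 : ∀ {A B : MvPolynomial (Fin (M + 1)) ℂ},
      MonomialOrder.lex.degree (toIter M A) = MonomialOrder.lex.degree (toIter M B) →
      (∀ d, Polynomial.rootMultiplicity (c d) (MonomialOrder.lex.leadingCoeff (toIter M A)) =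
        Polynomial.rootMultiplicity (c d) (MonomialOrder.lex.leadingCoeff (toIter M B))) →
      vP c A = vP c B := by
    intro A B h1 h2
    funext κ
    rcases κ with k | d
    · show ((MonomialOrder.lex.degree (toIter M A) k : ℕ) : ℤ) =
        ((MonomialOrder.lex.degree (toIter M B) k : ℕ) : ℤ)
      rw [h1]
    · show ((Polynomial.rootMultiplicity (c d)
        (MonomialOrder.lex.leadingCoeff (toIter M A)) : ℕ) : ℤ) =
        ((Polynomial.rootMultiplicity (c d)
        (MonomialOrder.lex.leadingCoeff (toIter M B)) : ℕ) : ℤ)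
      rw [h2]
  rcases lt_trichotomy (MonomialOrder.lex.toSyn (MonomialOrder.lex.degree f))
    (MonomialOrder.lex.toSyn (MonomialOrder.lex.degree g)) with hlt | heq | hgt
  · right; left
    refine ext1 ?_ ?_
    · rw [hadd, ← hg, add_comm, MonomialOrder.degree_add_of_lt hlt]
    · intro d
      rw [hadd, ← hg, add_comm, MonomialOrder.leadingCoeff_add_of_lt hlt]
  · have hdeg : MonomialOrder.lex.degree f = MonomialOrder.lex.degree g :=
      MonomialOrder.lex.toSyn.injective heq
    by_cases hlc : MonomialOrder.lex.leadingCoeff f + MonomialOrder.lex.leadingCoeff g = 0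
    · right; right; left
      refine ext1 hdeg ?_
      intro d
      have h1 : MonomialOrder.lex.leadingCoeff g = - MonomialOrder.lex.leadingCoeff f := by
        linear_combination hlc
      rw [← hf, ← hg, h1]
      have h2 : ∀ q : Polynomial ℂ, Polynomial.rootMultiplicity (c d) (-q) =
          Polynomial.rootMultiplicity (c d) q := by
        intro q
        by_cases hq : q = 0
        · rw [hq, neg_zero]
        · have h3 : -q = Polynomial.C (-1) * q := by simp
          rw [h3, Polynomial.rootMultiplicity_mul (by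
            rw [← h3]; exact neg_ne_zero.2 hq), Polynomial.rootMultiplicity_C, zero_add]
      rw [h2]
    · right; right; right
      have hcoef : (f + g).coeff (MonomialOrder.lex.degree f) ≠ 0 := by
        rw [coeff_add]
        have e2 : g.coeff (MonomialOrder.lex.degree f) = MonomialOrder.lex.leadingCoeff g := by
          rw [hdeg]; rfl
        have e1 : f.coeff (MonomialOrder.lex.degree f) = MonomialOrder.lex.leadingCoeff f := rfl
        rw [e1, e2]
        exact hlc
      have hle : MonomialOrder.lex.toSyn (MonomialOrder.lex.degree f) ≤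
          MonomialOrder.lex.toSyn (MonomialOrder.lex.degree (f + g)) :=
        MonomialOrder.lex.le_degree (mem_support_iff.2 hcoef)
      have hge : MonomialOrder.lex.toSyn (MonomialOrder.lex.degree (f + g)) ≤
          MonomialOrder.lex.toSyn (MonomialOrder.lex.degree f) := by
        refine (MonomialOrder.degree_add_le).trans ?_
        rw [← heq, max_self]
      have hd : MonomialOrder.lex.degree (f + g) = MonomialOrder.lex.degree f :=
        MonomialOrder.lex.toSyn.injective (le_antisymm hge hle)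
      intro k
      constructor
      · show ((MonomialOrder.lex.degree (toIter M P) k : ℕ) : ℤ) =
          ((MonomialOrder.lex.degree (toIter M R) k : ℕ) : ℤ)
        rw [hadd, hd, ← hf]
      · show ((MonomialOrder.lex.degree (toIter M Q) k : ℕ) : ℤ) =
          ((MonomialOrder.lex.degree (toIter M R) k : ℕ) : ℤ)
        rw [hadd, hd, hdeg, ← hg]
  · left
    refine ext1 ?_ ?_
    · rw [hadd, ← hf, MonomialOrder.degree_add_of_lt hgt]
    · intro d
      rw [hadd, ← hf, MonomialOrder.leadingCoeff_add_of_lt hgt]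

theorem vP_X (c : D → ℂ) [DecidableEq D] (k : Fin M) :
    vP c (X k.succ) = Pi.single (Sum.inl k) 1 := by
  funext κ
  rcases κ with k' | d
  · show ((MonomialOrder.lex.degree (toIter M (X k.succ)) k' : ℕ) : ℤ) = _
    rw [toIter_X_succ, MonomialOrder.degree_X]
    by_cases hk : k' = k
    · subst hk; simp
    · have : (Sum.inl k' : Fin M ⊕ D) ≠ Sum.inl k := fun h => hk (Sum.inl_injective h)
      rw [Pi.single_eq_of_ne this, Finsupp.single_eq_of_ne hk]
      rfl
  · show ((Polynomial.rootMultiplicity (c d)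
      (MonomialOrder.lex.leadingCoeff (toIter M (X k.succ))) : ℕ) : ℤ) = _
    rw [toIter_X_succ, MonomialOrder.leadingCoeff_X]
    have : (Sum.inr d : Fin M ⊕ D) ≠ Sum.inl k := Sum.inr_ne_inl
    rw [Pi.single_eq_of_ne this]
    have h1 : (1 : Polynomial ℂ) = Polynomial.C 1 := rfl
    rw [h1, Polynomial.rootMultiplicity_C]
    rfl

theorem vP_X_sub (c : D → ℂ) (hc : Function.Injective c) [DecidableEq D] (d : D) :
    vP c (X 0 - C (c d) : MvPolynomial (Fin (M + 1)) ℂ) = Pi.single (Sum.inr d) 1 := by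
  have e : toIter M (X 0 - C (c d)) = C (Polynomial.X - Polynomial.C (c d)) := by
    rw [map_sub, toIter_X_zero, toIter_C, map_sub]
  funext κ
  rcases κ with k' | d'
  · show ((MonomialOrder.lex.degree (toIter M (X 0 - C (c d))) k' : ℕ) : ℤ) = _
    rw [e, MonomialOrder.degree_C]
    have : (Sum.inl k' : Fin M ⊕ D) ≠ Sum.inr d := Sum.inl_ne_inr
    rw [Pi.single_eq_of_ne this]
    rfl
  · show ((Polynomial.rootMultiplicity (c d')
      (MonomialOrder.lex.leadingCoeff (toIter M (X 0 - C (c d)))) : ℕ) : ℤ) = _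
    rw [e, MonomialOrder.leadingCoeff_C]
    by_cases hd : d' = d
    · subst hd
      rw [Polynomial.rootMultiplicity_X_sub_C_self]
      simp
    · have : (Sum.inr d' : Fin M ⊕ D) ≠ Sum.inr d := fun h => hd (Sum.inr_injective h)
      rw [Pi.single_eq_of_ne this, Polynomial.rootMultiplicity_X_sub_C,
        if_neg (fun h => hd (hc h))]
      rfl

/-! ### Extension to the fraction field -/

/-- the extension of `vP` to rational functions -/
noncomputable def vF (c : D → ℂ) (u : FractionRing (MvPolynomial (Fin (M + 1)) ℂ)) :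
    Fin M ⊕ D → ℤ :=
  vP c (IsLocalization.sec (nonZeroDivisors (MvPolynomial (Fin (M + 1)) ℂ)) u).1 -
    vP c (IsLocalization.sec (nonZeroDivisors (MvPolynomial (Fin (M + 1)) ℂ)) u).2.1

theorem exists_frac (u : FractionRing (MvPolynomial (Fin (M + 1)) ℂ)) (hu : u ≠ 0) :
    ∃ P Q : MvPolynomial (Fin (M + 1)) ℂ, P ≠ 0 ∧ Q ≠ 0 ∧
      u * algebraMap _ _ Q = algebraMap _ _ P ∧
      (IsLocalization.sec (nonZeroDivisors (MvPolynomial (Fin (M + 1)) ℂ)) u).1 = P ∧
      (IsLocalization.sec (nonZeroDivisors (MvPolynomial (Fin (M + 1)) ℂ)) u).2.1 = Q := by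
  have h := IsLocalization.sec_spec (M := nonZeroDivisors (MvPolynomial (Fin (M + 1)) ℂ)) u
  refine ⟨_, _, ?_, ?_, h, rfl, rfl⟩
  · intro h0
    rw [h0, map_zero] at h
    rcases mul_eq_zero.1 h with h | h
    · exact hu h
    · have h2 := nonZeroDivisors.ne_zero
        (IsLocalization.sec (nonZeroDivisors (MvPolynomial (Fin (M + 1)) ℂ)) u).2.2
      exact h2 ((map_eq_zero_iff _ (IsFractionRing.injective _ _)).1 h)
  · exact nonZeroDivisors.ne_zero
        (IsLocalization.sec (nonZeroDivisors (MvPolynomial (Fin (M + 1)) ℂ)) u).2.2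

theorem vF_eq (c : D → ℂ) (u : FractionRing (MvPolynomial (Fin (M + 1)) ℂ)) (hu : u ≠ 0)
    (P Q : MvPolynomial (Fin (M + 1)) ℂ) (hP : P ≠ 0) (hQ : Q ≠ 0)
    (h : u * algebraMap _ _ Q = algebraMap _ _ P) : vF c u = vP c P - vP c Q := by
  obtain ⟨P', Q', hP', hQ', h', e1, e2⟩ := exists_frac u hu
  rw [vF, e1, e2]
  have hcross : P * Q' = P' * Q := by
    apply IsFractionRing.injective (MvPolynomial (Fin (M + 1)) ℂ)
      (FractionRing (MvPolynomial (Fin (M + 1)) ℂ))
    rw [map_mul, map_mul, ← h, ← h']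
    ring
  have h3 := congrArg (vP c) hcross
  rw [vP_mul c hP hQ', vP_mul c hP' hQ] at h3
  linear_combination (-1 : ℤ) • h3

theorem vF_mul (c : D → ℂ) (u v : FractionRing (MvPolynomial (Fin (M + 1)) ℂ)) (hu : u ≠ 0)
    (hv : v ≠ 0) : vF c (u * v) = vF c u + vF c v := by
  obtain ⟨P, Q, hP, hQ, h, -, -⟩ := exists_frac u hu
  obtain ⟨P', Q', hP', hQ', h', -, -⟩ := exists_frac v hv
  rw [vF_eq c u hu P Q hP hQ h, vF_eq c v hv P' Q' hP' hQ' h',
    vF_eq c (u * v) (mul_ne_zero hu hv) (P * P') (Q * Q') (mul_ne_zero hP hP')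
      (mul_ne_zero hQ hQ') (by rw [map_mul, map_mul, ← h, ← h']; ring),
    vP_mul c hP hP', vP_mul c hQ hQ']
  abel

theorem vF_steinberg (c : D → ℂ) (u v : FractionRing (MvPolynomial (Fin (M + 1)) ℂ))
    (hu : u ≠ 0) (hv : v ≠ 0) (huv : u + v = 1) :
    vF c u = 0 ∨ vF c v = 0 ∨ vF c u = vF c v ∨
      ∀ k, vF c u (Sum.inl k) = 0 ∧ vF c v (Sum.inl k) = 0 := by
  obtain ⟨P, Q, hP, hQ, h, -, -⟩ := exists_frac u hu
  obtain ⟨P', Q', hP', hQ', h', -, -⟩ := exists_frac v hv
  have hsum : P * Q' + P' * Q = Q * Q' := by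
    apply IsFractionRing.injective (MvPolynomial (Fin (M + 1)) ℂ)
      (FractionRing (MvPolynomial (Fin (M + 1)) ℂ))
    rw [map_add, map_mul, map_mul, map_mul, ← h, ← h']
    linear_combination (algebraMap (MvPolynomial (Fin (M + 1)) ℂ)
      (FractionRing (MvPolynomial (Fin (M + 1)) ℂ)) Q * algebraMap _ _ Q') * huv
  have e1 : vF c u = vP c (P * Q') - vP c (Q * Q') :=
    vF_eq c u hu _ _ (mul_ne_zero hP hQ') (mul_ne_zero hQ hQ') (by
      rw [map_mul, map_mul, ← h]; ring)
  have e2 : vF c v = vP c (P' * Q) - vP c (Q * Q') :=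
    vF_eq c v hv _ _ (mul_ne_zero hP' hQ) (mul_ne_zero hQ hQ') (by
      rw [map_mul, map_mul, ← h']; ring)
  rcases vP_add c (mul_ne_zero hP hQ') (mul_ne_zero hP' hQ) hsum with h1 | h1 | h1 | h1
  · left; rw [e1, h1, sub_self]
  · right; left; rw [e2, h1, sub_self]
  · right; right; left; rw [e1, e2, h1]
  · right; right; right
    intro k
    rw [e1, e2, Pi.sub_apply, Pi.sub_apply, (h1 k).1, (h1 k).2, sub_self]
    exact ⟨rfl, rfl⟩

theorem vF_algebraMap (c : D → ℂ) (P : MvPolynomial (Fin (M + 1)) ℂ) (hP : P ≠ 0) :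
    vF c (algebraMap _ (FractionRing (MvPolynomial (Fin (M + 1)) ℂ)) P) = vP c P := by
  have hP' : algebraMap _ (FractionRing (MvPolynomial (Fin (M + 1)) ℂ)) P ≠ 0 :=
    (map_ne_zero_iff _ (IsFractionRing.injective _ _)).2 hP
  rw [vF_eq c _ hP' P 1 hP one_ne_zero (by rw [map_one, mul_one])]
  have h1 := vP_mul c (one_ne_zero (α := MvPolynomial (Fin (M + 1)) ℂ))
    (one_ne_zero (α := MvPolynomial (Fin (M + 1)) ℂ))
  rw [mul_one] at h1
  have h2 : vP c (1 : MvPolynomial (Fin (M + 1)) ℂ) = 0 := by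
    have := sub_eq_zero.2 h1
    simpa using this
  rw [h2, sub_zero]

end Pool.Agent.Lib.MP_0c65c1_al
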