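import Pool.Agent.Lib.MP_0c65c1_al.Defs
import Pool.Agent.Lib.MP_0c65c1_al.Val
import Pool.Agent.Lib.MP_0c65c1_al.Lin

set_option autoImplicit false

open MvPolynomial

namespace Pool.Agent.Lib.MP_0c65c1_al

/-- rational functions in `M + 1` variables -/
abbrev RF (M : ℕ) : Type := FractionRing (MvPolynomial (Fin (M + 1)) ℂ)

/-- the vector valued valuation modulo `p` -/
noncomputable def VV (M : ℕ) {D : Type} (c : D → ℂ) (p : ℕ) (u : (RF M)ˣ) :
    Fin M ⊕ D → ZMod p :=
  fun κ => ((vF c (u : RF M) κ : ℤ) : ZMod p)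

variable {M : ℕ} {D : Type} (c : D → ℂ) (p : ℕ) [Fact p.Prime]

theorem VV_mul (a b : (RF M)ˣ) : VV M c p (a * b) = VV M c p a + VV M c p b := by
  funext κ
  show ((vF c ((a : RF M) * (b : RF M)) κ : ℤ) : ZMod p) = _
  rw [vF_mul c _ _ a.ne_zero b.ne_zero, Pi.add_apply, Int.cast_add]
  rfl

theorem VV_steinberg (a b : (RF M)ˣ) (h : (a : RF M) + (b : RF M) = 1) :
    SteinbergLike (VV M c p) a b := by
  have hz : ∀ u : (RF M)ˣ, vF c (u : RF M) = 0 → VV M c p u = 0 := by
    intro u hu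
    funext κ
    show ((vF c (u : RF M) κ : ℤ) : ZMod p) = 0
    rw [hu]
    simp
  rcases vF_steinberg c _ _ a.ne_zero b.ne_zero h with h1 | h1 | h1 | h1
  · exact Or.inl (hz a h1)
  · exact Or.inr (Or.inl (hz b h1))
  · refine Or.inr (Or.inr (Or.inl ?_))
    funext κ
    show ((vF c (a : RF M) κ : ℤ) : ZMod p) = ((vF c (b : RF M) κ : ℤ) : ZMod p)
    rw [h1]
  · refine Or.inr (Or.inr (Or.inr fun k => ?_))
    constructor
    · show ((vF c (a : RF M) (Sum.inl k) : ℤ) : ZMod p) = 0
      rw [(h1 k).1]; simp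
    · show ((vF c (b : RF M) (Sum.inl k) : ℤ) : ZMod p) = 0
      rw [(h1 k).2]; simp

/-- `Phi` vanishes on the relations -/
theorem Phi_eq_zero {ν : ℕ} (κ : Fin M ⊕ D) (g : Fin ν → Fin M)
    (f : (Fin (ν + 1) → (RF M)ˣ) →₀ ZMod p)
    (hf : f ∈ Submodule.span (ZMod p) (milnorRelations (RF M) (ν + 1) p)) :
    Phi (VV M c p) (Fin.cons κ fun j => Sum.inl (g j)) f = 0 := by
  have hle : Submodule.span (ZMod p) (milnorRelations (RF M) (ν + 1) p) ≤
      LinearMap.ker (Phi (VV M c p) (Fin.cons κ fun j => Sum.inl (g j))) := by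
    rw [Submodule.span_le]
    rintro f (⟨t, i, a, b, rfl⟩ | ⟨t, i, j, hij, hs, rfl⟩)
    · rw [SetLike.mem_coe, LinearMap.mem_ker, map_sub, map_sub, Phi_single, Phi_single,
        Phi_single, dt_update_mul (VV M c p) (VV_mul c p)]
      ring
    · rw [SetLike.mem_coe, LinearMap.mem_ker, Phi_single]
      exact dt_steinberg _ κ g t i j hij.ne (VV_steinberg c p _ _ hs)
  exact LinearMap.mem_ker.1 (hle hf)

/-- the variable `x_{k+1}` as a unit -/
noncomputable def tU (k : Fin M) : (RF M)ˣ :=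
  Units.mk0 (algebraMap (MvPolynomial (Fin (M + 1)) ℂ) (RF M) (X k.succ)) (by
    rw [map_ne_zero_iff _ (IsFractionRing.injective _ _)]
    exact X_ne_zero _)

theorem X_sub_C_ne_zero' (z : ℂ) : (X 0 - C z : MvPolynomial (Fin (M + 1)) ℂ) ≠ 0 := by
  intro h
  have h1 := congrArg (MvPolynomial.eval (fun _ => z + 1)) h
  simp at h1

/-- the element `x_0 - z` as a unit -/
noncomputable def xU (M : ℕ) (z : ℂ) : (RF M)ˣ :=
  Units.mk0 (algebraMap (MvPolynomial (Fin (M + 1)) ℂ) (RF M) (X 0 - C z)) (by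
    rw [map_ne_zero_iff _ (IsFractionRing.injective _ _)]
    exact X_sub_C_ne_zero' z)

theorem VV_tU [DecidableEq D] (k : Fin M) :
    VV M c p (tU k) = Pi.single (Sum.inl k) 1 := by
  funext κ
  show ((vF c (algebraMap (MvPolynomial (Fin (M + 1)) ℂ) (RF M) (X k.succ)) κ : ℤ) : ZMod p) = _
  rw [vF_algebraMap c _ (X_ne_zero _), vP_X]
  by_cases h : κ = Sum.inl k
  · subst h; simp
  · rw [Pi.single_eq_of_ne h, Pi.single_eq_of_ne h]; simp

theorem VV_xU (hc : Function.Injective c) [DecidableEq D] (d : D) :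
    VV M c p (xU M (c d)) = Pi.single (Sum.inr d) 1 := by
  funext κ
  show ((vF c (algebraMap (MvPolynomial (Fin (M + 1)) ℂ) (RF M) (X 0 - C (c d))) κ : ℤ) :
    ZMod p) = _
  rw [vF_algebraMap c _ (X_sub_C_ne_zero' _), vP_X_sub c hc]
  by_cases h : κ = Sum.inr d
  · subst h; simp
  · rw [Pi.single_eq_of_ne h, Pi.single_eq_of_ne h]; simp

/-- the tuple `(x_0 - z, x_{I_1 + 1}, …, x_{I_ν + 1})` -/
noncomputable def tup {ν : ℕ} (z : ℂ) (I : Fin ν → Fin M) : Fin (ν + 1) → (RF M)ˣ :=
  Fin.cons (xU M z) fun j => tU (I j)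

theorem dt_tup (hc : Function.Injective c) [DecidableEq D] {ν : ℕ} (d : D) (I : Fin ν → Fin M)
    (κ : Fin M ⊕ D) (g : Fin ν → Fin M) :
    dt (VV M c p) (Fin.cons κ fun j => Sum.inl (g j)) (tup (c d) I) =
      if κ = Sum.inr d then
        Matrix.det (Matrix.of fun j j' : Fin ν => if g j' = I j then (1 : ZMod p) else 0)
      else 0 := by
  have hrow : ∀ j : Fin (ν + 1), VV M c p (tup (c d) I 0)
      ((Fin.cons κ fun j => Sum.inl (g j) : Fin (ν + 1) → Fin M ⊕ D) j) =
      if j = 0 then (if κ = Sum.inr d then 1 else 0) else 0 := by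
    intro j
    have h1 : tup (c d) I 0 = xU M (c d) := rfl
    rw [h1, VV_xU c p hc]
    refine Fin.cases ?_ (fun j' => ?_) j
    · rw [Fin.cons_zero, if_pos rfl]
      by_cases h : κ = Sum.inr d
      · rw [if_pos h, h]; simp
      · rw [if_neg h, Pi.single_eq_of_ne h]
    · rw [Fin.cons_succ, if_neg (Fin.succ_ne_zero j')]
      exact Pi.single_eq_of_ne Sum.inl_ne_inr _
  rw [dt, Matrix.det_succ_row_zero, Fin.sum_univ_succ]
  have hrest : ∑ i : Fin ν, (-1) ^ ((i.succ : Fin (ν + 1)) : ℕ) *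
      (Matrix.of fun i j => VV M c p (tup (c d) I i)
        ((Fin.cons κ fun j => Sum.inl (g j) : Fin (ν + 1) → Fin M ⊕ D) j)) 0 i.succ *
      ((Matrix.of fun i j => VV M c p (tup (c d) I i)
        ((Fin.cons κ fun j => Sum.inl (g j) : Fin (ν + 1) → Fin M ⊕ D) j)).submatrix Fin.succ
          i.succ.succAbove).det = 0 := by
    refine Finset.sum_eq_zero fun i _ => ?_
    rw [Matrix.of_apply, hrow, if_neg (Fin.succ_ne_zero i), mul_zero, zero_mul]
  rw [hrest, add_zero, Matrix.of_apply, hrow, if_pos rfl]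
  have hsub : ((Matrix.of fun i j => VV M c p (tup (c d) I i)
        ((Fin.cons κ fun j => Sum.inl (g j) : Fin (ν + 1) → Fin M ⊕ D) j)).submatrix Fin.succ
          (Fin.succAbove 0)) =
      Matrix.of fun j j' : Fin ν => if g j' = I j then (1 : ZMod p) else 0 := by
    refine Matrix.ext fun j j' => ?_
    rw [Matrix.submatrix_apply, Matrix.of_apply, Matrix.of_apply, Fin.succAbove_zero,
      Fin.cons_succ]
    have h2 : tup (c d) I j.succ = tU (I j) := rfl
    rw [h2, VV_tU]
    by_cases h : g j' = I j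
    · rw [if_pos h, h]; simp
    · rw [if_neg h]
      exact Pi.single_eq_of_ne (fun h' => h (Sum.inl_injective h')) _
  rw [hsub]
  by_cases h : κ = Sum.inr d
  · rw [if_pos h, if_pos h]; simp
  · rw [if_neg h, if_neg h]; simp

/-- **The lower bound.** -/
theorem lower_bound {ν : ℕ} (hν : 1 ≤ ν) (hνM : ν ≤ M)
    (c : (Fin ν ↪o Fin M) → ℂ) (hc : Function.Injective c) (r : ℕ)
    (s : Fin r → Fin (ν + 1) → (RF M)ˣ)
    (h : ∑ I : Fin ν ↪o Fin M, symb p (tup (c I) I) = ∑ l, symb p (s l)) :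
    M.choose ν + M ≤ r * (ν + 1) := by
  classical
  have hmem : (∑ I : Fin ν ↪o Fin M, Finsupp.single (tup (c I) I) (1 : ZMod p)) -
      ∑ l, Finsupp.single (s l) (1 : ZMod p) ∈
      Submodule.span (ZMod p) (milnorRelations (RF M) (ν + 1) p) := by
    rw [← Submodule.Quotient.eq]
    have e1 : (Submodule.Quotient.mk (∑ I : Fin ν ↪o Fin M,
        Finsupp.single (tup (c I) I) (1 : ZMod p)) :
        MilnorK (RF M) (ν + 1) p) = ∑ I : Fin ν ↪o Fin M, symb p (tup (c I) I) :=
      map_sum (Submodule.mkQ _) _ _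
    have e2 : (Submodule.Quotient.mk (∑ l, Finsupp.single (s l) (1 : ZMod p)) :
        MilnorK (RF M) (ν + 1) p) = ∑ l, symb p (s l) :=
      map_sum (Submodule.mkQ _) _ _
    rw [e1, e2, h]
  have hPhi : ∀ (κ : Fin M ⊕ (Fin ν ↪o Fin M)) (g : Fin ν → Fin M),
      ∑ l, dt (VV M c p) (Fin.cons κ fun j => Sum.inl (g j)) (s l) =
      ∑ I : Fin ν ↪o Fin M, dt (VV M c p) (Fin.cons κ fun j => Sum.inl (g j)) (tup (c I) I) := by
    intro κ g
    have h1 := Phi_eq_zero c p κ g _ hmem
    rw [map_sub, map_sum, map_sum, sub_eq_zero] at h1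
    simp only [Phi_single] at h1
    exact h1.symm
  have hcard : Fintype.card (Fin ν ↪o Fin M) = M.choose ν := by
    have e : (Fin ν ↪o Fin M) ≃ {T : Finset (Fin M) // T ∈ Finset.powersetCard ν Finset.univ} :=
      { toFun := fun I => ⟨Finset.univ.map I.toEmbedding, by
          rw [Finset.mem_powersetCard]
          exact ⟨Finset.subset_univ _, by simp⟩⟩
        invFun := fun T => T.1.orderEmbOfFin (Finset.mem_powersetCard.1 T.2).2
        left_inv := fun I => by
          apply OrderEmbedding.range_inj.1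
          rw [Finset.range_orderEmbOfFin]
          ext x
          simp
        right_inv := fun T => by
          apply Subtype.ext
          apply Finset.coe_injective
          show ((Finset.univ.map (T.1.orderEmbOfFin
            (Finset.mem_powersetCard.1 T.2).2).toEmbedding : Finset (Fin M)) : Set (Fin M)) = T.1
          rw [← Finset.range_orderEmbOfFin T.1 (Finset.mem_powersetCard.1 T.2).2]
          ext x
          simp }
    rw [Fintype.card_congr e, Fintype.card_coe, Finset.card_powersetCard, Finset.card_univ,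
      Fintype.card_fin]
  rw [← hcard]
  refine main_bound hν hνM (VV M c p) s id Function.bijective_id ?_ ?_
  · intro k g
    rw [hPhi]
    refine Finset.sum_eq_zero fun I _ => ?_
    rw [dt_tup c p hc, if_neg Sum.inl_ne_inr]
  · intro d g
    rw [hPhi, Finset.sum_eq_single d]
    · rw [dt_tup c p hc, if_pos rfl]
      rfl
    · intro I _ hI
      rw [dt_tup c p hc, if_neg (fun h' => hI (Sum.inr_injective h').symm)]
    · intro h'
      exact absurd (Finset.mem_univ d) h'

end Pool.Agent.Lib.MP_0c65c1_al
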